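import Pool.Agent.Results.MP_308fa9_nt.FamiliesOverExtensions
import Pool.Agent.Results.MP_308fa9_nt.ClosuresInFamilies
import Pool.Agent.X134.Win.Level
import Pool.Agent.X134.Win.Idx

/-!
# The members in windows of heights of all families of subvarieties of powers of elliptic curves

Let `v ≥ 1` be a sequence of exponent of convergence at most `τ` (`0` for `v_k = b ^ k`) and `θ < 1`. There is one
set `E` of real numbers of Hausdorff dimension at most `τ / (1 - θ)` such that for each `α > 0` outside `E` the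
following holds for ALL number fields `K`, ALL elliptic curves `y² = x³ + a x + b` over `K` and ALL closed subsets
`X` of `E ^ r × ℙ ^ n` over `K` (families of subvarieties `X_y ⊆ E ^ r` with parameter `y`), for all but finitely
many `k` and ALL points `y` in `ℙ ^ n (K)` with `|H(y) - α v_k| ≤ v_k ^ θ`.

(1) If the fibres of `X → E ^ r` have at most `D` points, then the closure of the group of `K`-rational points
does not meet the product of the `X_y(K_v)`.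
(2) If every complex point of `E ^ r` is for at most `D` of the `y` a sum of `m` points of `X_y`, for `2 ≤ m ≤ M`,
then for ALL extensions `F` of `K` of degree between `2` and `M` the closure of the group of the `F`-rational
points does not meet the product of the `X_y(F_w)`.

Proof. The starting results `ClosuresInFamilies` and `FamiliesOverExtensions` show that there are `O(B ^ ε)`
exceptions up to height `B`; covering argument `Pool.Agent.Y854.GM`; the situations are countable in number.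
-/

set_option autoImplicit false

namespace Pool.Agent.Results.MP_308fa9_nt.AllFamiliesInWindows

open MvPolynomial NumberField IsDedekindDomain MeasureTheory

open scoped LinearAlgebra.Projectivization

/-- the exponent of convergence of the sequence `v` is at most `τ` -/
def ExpLe (v : ℕ → ℝ) (τ : ℝ) : Prop := ∀ t : ℝ, τ < t → Summable (fun n : ℕ => (v n) ^ (-t))

/-- the number fields inside a fixed algebraic closure of the rationals -/
abbrev NF : Type := Pool.Agent.X134.Win.NF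

/-- all points `y` in `ℙ ^ n (K)` with height in a window `|H(y) - α v_k| ≤ v_k ^ θ` are outside `S`, for all but
finitely many `k` -/
def Avoids {K : Type} [Field K] [NumberField K] {n : ℕ} (v : ℕ → ℝ) (α θ : ℝ)
    (S : Set (ℙ K (Fin (n + 1) → K))) : Prop :=
  ∃ k₀ : ℕ, ∀ k : ℕ, k₀ ≤ k → ∀ y : ℙ K (Fin (n + 1) → K), |y.mulHeight - α * v k| ≤ (v k) ^ θ → y ∉ S

/-- the fibres of `X → E ^ r` over the complex points of `E ^ r` have at most `D` points -/
def FibresLE {K : Type} [Field K] (σ : K →+* ℂ) (a b : 𝓞 K) {r n q : ℕ}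
    (G : Fin q → MvPolynomial ((Fin r × Fin 3) ⊕ Fin (n + 1)) (𝓞 K)) (D : ℕ) : Prop :=
  ∀ V : Fin r → Fin 3 → ℂ, (∀ i, ClosuresInFamilies.OnE (σ a) (σ b) (V i)) →
    (ClosuresInFamilies.Fibre (σ.comp (algebraMap (𝓞 K) K)) G V).encard ≤ D

/-- for `2 ≤ m ≤ M` each complex point of `E ^ r` is for at most `D` of the complex points `y` a sum of `m` points
of `X_y` -/
def SumsLE {K : Type} [Field K] (σ : K →+* ℂ) (a b : 𝓞 K) {r n q : ℕ}
    (G : Fin q → MvPolynomial ((Fin r × Fin 3) ⊕ Fin (n + 1)) (𝓞 K)) (M D : ℕ) : Prop :=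
  ∀ m, 2 ≤ m → m ≤ M → ∀ S : Fin r → (FamiliesOverExtensions.curve (σ a) (σ b)).toAffine.Point,
    {y : ℙ ℂ (Fin (n + 1) → ℂ) | FamiliesOverExtensions.IsSum σ a b G m S y.rep}.encard ≤ D

/-- the assertion for all elliptic curves over `K` and all families: the members in almost all windows are
obstructed over `K`, and over all extensions of degree between `2` and `M` -/
def Obstructed (K : Type) [Field K] [NumberField K] (v : ℕ → ℝ) (α θ : ℝ) : Prop :=
  ∀ a b : 𝓞 K, 4 * a ^ 3 + 27 * b ^ 2 ≠ 0 → ∀ (r n q : ℕ)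
    (G : Fin q → MvPolynomial ((Fin r × Fin 3) ⊕ Fin (n + 1)) (𝓞 K))
    (d : Fin q → Fin r → ℕ) (deg : Fin q → ℕ),
    (∀ e, FamiliesOverExtensions.MultiHom (G e) (d e) (deg e)) → ∀ (σ : K →+* ℂ) (D : ℕ),
    (FibresLE σ a b G D → ∀ S : Set (HeightOneSpectrum (𝓞 K)), S.Finite →
      Avoids v α θ (ClosuresInFamilies.Unobstructed a b G S)) ∧
    ∀ M : ℕ, SumsLE σ a b G M D → ∀ T : Finset ℕ, (∀ p ∈ T, p.Prime) →
      Avoids v α θ (FamiliesOverExtensions.Unobstructed a b G T M)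

section Proof

/-- the hypotheses of the first part -/
def Hyp₁ (K : NF) {r n q : ℕ} (a b : 𝓞 K.1)
    (G : Fin q → MvPolynomial ((Fin r × Fin 3) ⊕ Fin (n + 1)) (𝓞 K.1)) : Prop :=
  4 * a ^ 3 + 27 * b ^ 2 ≠ 0 ∧
    (∃ (d : Fin q → Fin r → ℕ) (m : Fin q → ℕ),
      ∀ e, ClosuresInFamilies.MultiHomog (G e) (d e) (m e)) ∧
    ∃ (σ : K.1 →+* ℂ) (D : ℕ), ∀ V : Fin r → Fin 3 → ℂ,
      (∀ j, ClosuresInFamilies.OnE (σ a) (σ b) (V j)) →
        (ClosuresInFamilies.Fibre (σ.comp (algebraMap (𝓞 K.1) K.1)) G V).encard ≤ D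

theorem few₁ (K : NF) {r n q : ℕ} (a b : 𝓞 K.1)
    (G : Fin q → MvPolynomial ((Fin r × Fin 3) ⊕ Fin (n + 1)) (𝓞 K.1))
    (S : Finset (HeightOneSpectrum (𝓞 K.1))) :
    Pool.Agent.X134.Win.FewBad (fun y : ℙ K.1 (Fin (n + 1) → K.1) => y.mulHeight)
      (fun _ y => Hyp₁ K a b G →
        y ∉ ClosuresInFamilies.Unobstructed a b G (S : Set (HeightOneSpectrum (𝓞 K.1)))) := by
  classical
  by_cases h : Hyp₁ K a b G
  · obtain ⟨h1, ⟨d, m, h2⟩, σ, D, h3⟩ := id h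
    have h4 := Pool.Agent.X134.Win.fewBad_of_set (fun y : ℙ K.1 (Fin (n + 1) → K.1) => y.mulHeight)
      (ClosuresInFamilies.Unobstructed a b G (S : Set (HeightOneSpectrum (𝓞 K.1))))
      (fun ε hε => ClosuresInFamilies.result K.1 a b h1 r n q G d m h2 σ D h3 _ S.finite_toSet ε hε)
    intro ε hε
    obtain ⟨C, hC⟩ := h4 ε hε
    refine ⟨C, fun B hB => ?_⟩
    obtain ⟨N, hN1, hN2, Z, hZ, hg⟩ := hC B hB
    exact ⟨N, hN1, hN2, Z, hZ, fun y hy hyZ _ => hg y hy hyZ⟩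
  · exact Pool.Agent.X134.Win.fewBad_trivial _ _ fun N y h' => absurd h' h

/-- the hypotheses of the second part -/
def Hyp₂ (K : NF) {r n q : ℕ} (a b : 𝓞 K.1)
    (G : Fin q → MvPolynomial ((Fin r × Fin 3) ⊕ Fin (n + 1)) (𝓞 K.1)) (T : Finset ℕ) (M : ℕ) : Prop :=
  4 * a ^ 3 + 27 * b ^ 2 ≠ 0 ∧
    (∃ (d : Fin q → Fin r → ℕ) (m : Fin q → ℕ),
      ∀ e, FamiliesOverExtensions.MultiHom (G e) (d e) (m e)) ∧ (∀ p ∈ T, p.Prime) ∧
    ∃ (σ : K.1 →+* ℂ) (D : ℕ), ∀ m, 2 ≤ m → m ≤ M →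
      ∀ S : Fin r → (FamiliesOverExtensions.curve (σ a) (σ b)).toAffine.Point,
      {y : ℙ ℂ (Fin (n + 1) → ℂ) | FamiliesOverExtensions.IsSum σ a b G m S y.rep}.encard ≤ D

theorem few₂ (K : NF) {r n q : ℕ} (a b : 𝓞 K.1)
    (G : Fin q → MvPolynomial ((Fin r × Fin 3) ⊕ Fin (n + 1)) (𝓞 K.1)) (T : Finset ℕ) (M : ℕ) :
    Pool.Agent.X134.Win.FewBad (fun y : ℙ K.1 (Fin (n + 1) → K.1) => y.mulHeight)
      (fun _ y => Hyp₂ K a b G T M → y ∉ FamiliesOverExtensions.Unobstructed a b G T M) := by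
  classical
  by_cases h : Hyp₂ K a b G T M
  · obtain ⟨h1, ⟨d, m, h2⟩, hT, σ, D, h3⟩ := id h
    have h4 := Pool.Agent.X134.Win.fewBad_of_set (fun y : ℙ K.1 (Fin (n + 1) → K.1) => y.mulHeight)
      (FamiliesOverExtensions.Unobstructed a b G T M)
      (fun ε hε => FamiliesOverExtensions.result K.1 a b h1 r n q G d m h2 σ M D h3 T hT ε hε)
    intro ε hε
    obtain ⟨C, hC⟩ := h4 ε hε
    refine ⟨C, fun B hB => ?_⟩
    obtain ⟨N, hN1, hN2, Z, hZ, hg⟩ := hC B hB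
    exact ⟨N, hN1, hN2, Z, hZ, fun y hy hyZ _ => hg y hy hyZ⟩
  · exact Pool.Agent.X134.Win.fewBad_trivial _ _ fun N y h' => absurd h' h

/-- the index set of the first part -/
abbrev I₁ : Type := Pool.Agent.X134.Win.Idx fun K => Finset (HeightOneSpectrum (𝓞 K.1))

/-- the index set of the second part -/
abbrev I₂ : Type := Pool.Agent.X134.Win.Idx fun _ => Finset ℕ × ℕ

/-- the property of the first part -/
def P₁ : ∀ i : I₁, ℕ → ℙ i.1.1 (Fin (i.2.2.1 + 1) → i.1.1) → Prop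
  | ⟨K, _, _, _, (a, b), G, S⟩ => fun _ y => Hyp₁ K a b G →
    y ∉ ClosuresInFamilies.Unobstructed a b G (S : Set (HeightOneSpectrum (𝓞 K.1)))

/-- the property of the second part -/
def P₂ : ∀ i : I₂, ℕ → ℙ i.1.1 (Fin (i.2.2.1 + 1) → i.1.1) → Prop
  | ⟨K, _, _, _, (a, b), G, (T, M)⟩ => fun _ y => Hyp₂ K a b G T M →
    y ∉ FamiliesOverExtensions.Unobstructed a b G T M

end Proof

/-- **Theorem.** See the header. -/
theorem result :
    (∀ (v : ℕ → ℝ) (τ θ : ℝ), (∀ k, 1 ≤ v k) → 0 ≤ τ → ExpLe v τ → θ < 1 →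
      ∃ E : Set ℝ, dimH E ≤ ENNReal.ofReal (τ / (1 - θ)) ∧ ∀ α : ℝ, 0 < α → α ∉ E →
      ∀ K : NF, Obstructed K.1 v α θ) ∧
    (∀ b : ℝ, 0 < b → ExpLe (fun n : ℕ => ((n : ℝ) + 1) ^ b) (1 / b)) ∧
    (∀ b : ℝ, 1 < b → ExpLe (fun n : ℕ => b ^ n) 0) := by
  refine ⟨fun v τ θ hv hτ hE hθ => ?_, fun b hb => Pool.Agent.Y854.GM.expLe_pow b hb,
    fun b hb => Pool.Agent.Y854.GM.expLe_geom b hb⟩
  obtain ⟨E₁, hE₁, H₁⟩ := Pool.Agent.X134.Win.levels (ι := I₁)
    (T := fun i => ℙ i.1.1 (Fin (i.2.2.1 + 1) → i.1.1)) (fun i y => y.mulHeight) P₁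
    (by rintro ⟨K, r, n, q, ⟨a, b⟩, G, S⟩; exact few₁ K a b G S) hv hτ hE hθ
  obtain ⟨E₂, hE₂, H₂⟩ := Pool.Agent.X134.Win.levels (ι := I₂)
    (T := fun i => ℙ i.1.1 (Fin (i.2.2.1 + 1) → i.1.1)) (fun i y => y.mulHeight) P₂
    (by rintro ⟨K, r, n, q, ⟨a, b⟩, G, T, M⟩; exact few₂ K a b G T M) hv hτ hE hθ
  refine ⟨E₁ ∪ E₂, ?_, fun α hα hαE K a b hab r n q G d deg hG σ D => ⟨fun hX S hS => ?_,
    fun M hX T hT => ?_⟩⟩
  · rw [dimH_union]
    exact max_le hE₁ hE₂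
  · obtain ⟨k₀, hk₀⟩ := H₁ α hα (fun h => hαE (Or.inl h)) ⟨K, r, n, q, (a, b), G, hS.toFinset⟩ 1 one_pos
    refine ⟨k₀, fun k hk y hy => ?_⟩
    obtain ⟨N, -, -, hg⟩ := hk₀ k hk
    have h : y ∉ ClosuresInFamilies.Unobstructed a b G
        (hS.toFinset : Set (HeightOneSpectrum (𝓞 K.1))) := hg y hy ⟨hab, ⟨d, deg, hG⟩, σ, D, hX⟩
    rwa [Set.Finite.coe_toFinset] at h
  · obtain ⟨k₀, hk₀⟩ := H₂ α hα (fun h => hαE (Or.inr h)) ⟨K, r, n, q, (a, b), G, T, M⟩ 1 one_pos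
    refine ⟨k₀, fun k hk y hy => ?_⟩
    obtain ⟨N, -, -, hg⟩ := hk₀ k hk
    exact hg y hy ⟨hab, ⟨d, deg, hG⟩, hT, σ, D, hX⟩

end Pool.Agent.Results.MP_308fa9_nt.AllFamiliesInWindows
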