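import Pool.Agent.Results.MP_308fa9_nt.ClosuresInFamilies
import Pool.Agent.X123.ML.Base

/-!
# Closures of Mordell-Weil groups and the members near a target of all families of subvarieties

Let `K` be a number field and `s` any map from the projective space `ℙ ^ n (K)` to a metric space `M`,
for example to the real, complex or `p`-adic projective space. There is ONE set `E` in `M` of
Hausdorff dimension zero with the following property. Let `x` be outside `E` and `τ > 0`. For ALL
elliptic curves `y² = x³ + a x + b` over `K`, ALL powers `E ^ r`, ALL families `X → ℙ ^ n` of closed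
subvarieties of `E ^ r` such that the fibres of `X → E ^ r` have at most `D` points, and ALL finite sets
`S` of primes, the closure of the group of rational points of `E ^ r` in the product of its
`K_v`-points, `v` outside `S`, does not meet the product of the `X_y(K_v)`, for all but finitely many
`y` in `ℙ ^ n (K)` with `|x - s(y)| ≤ H(y) ^ (-τ)`.
-/

set_option autoImplicit false

open MvPolynomial NumberField IsDedekindDomain

open scoped LinearAlgebra.Projectivization ENNReal

namespace Pool.Agent.Results.MP_308fa9_nt.MembersNearTargets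

open ClosuresInFamilies (OnE MultiHomog Fibre Unobstructed)
open Pool.Agent.X123.ML

theorem countable_mv (σ R : Type) [CommRing R] [Countable σ] [Countable R] :
    Countable (MvPolynomial σ R) := by
  have hinj : Function.Injective (fun p : MvPolynomial σ R => fun m : σ →₀ ℕ => p.coeff m) :=
    fun p q h => MvPolynomial.ext _ _ fun m => congrFun h m
  have h2 : Function.Injective (fun p : MvPolynomial σ R =>
      (Finsupp.onFinset p.support (fun m => p.coeff m)
        (fun m hm => MvPolynomial.mem_support_iff.2 hm) : (σ →₀ ℕ) →₀ R)) := by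
    intro p q h
    apply hinj
    funext m
    have := congrArg (fun f : (σ →₀ ℕ) →₀ R => f m) h
    simpa using this
  exact h2.countable

theorem countable_primes (R : Type) [CommRing R] [IsDedekindDomain R] [Countable R] :
    Countable (HeightOneSpectrum R) := by
  have h : ∀ v : HeightOneSpectrum R, ∃ s : Finset R, Ideal.span (s : Set R) = v.asIdeal := fun v =>
    (isNoetherianRing_iff_ideal_fg R).1 inferInstance v.asIdeal
  choose s hs using h
  have hinj : Function.Injective s := fun v w hvw => HeightOneSpectrum.ext (by rw [← hs v, ← hs w, hvw])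
  exact hinj.countable

/-- the hypotheses of the starting result -/
def Hyp (K : Type) [Field K] [NumberField K] {r n q : ℕ} (a b : 𝓞 K)
    (G : Fin q → MvPolynomial ((Fin r × Fin 3) ⊕ Fin (n + 1)) (𝓞 K)) : Prop :=
  4 * a ^ 3 + 27 * b ^ 2 ≠ 0 ∧
    (∃ (d : Fin q → Fin r → ℕ) (m : Fin q → ℕ), ∀ e, MultiHomog (G e) (d e) (m e)) ∧
    ∃ (σ : K →+* ℂ) (D : ℕ), ∀ V : Fin r → Fin 3 → ℂ, (∀ j, OnE (σ a) (σ b) (V j)) →
        (Fibre (σ.comp (algebraMap (𝓞 K) K)) G V).encard ≤ D

lemma mulHeight_pos {K : Type} [Field K] [NumberField K] {n : ℕ} (y : ℙ K (Fin (n + 1) → K)) :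
    1 ≤ y.mulHeight := by
  induction y using Projectivization.ind with
  | h x hx =>
    rw [Projectivization.mulHeight_mk]
    exact Height.one_le_mulHeight x

/-- **Theorem.** See the header. -/
theorem result (K : Type) [Field K] [NumberField K] (n : ℕ) (M : Type) [MetricSpace M]
    (s : ℙ K (Fin (n + 1) → K) → M) :
    ∃ E : Set M, dimH E = 0 ∧ ∀ x : M, x ∉ E → ∀ a b : 𝓞 K, 4 * a ^ 3 + 27 * b ^ 2 ≠ 0 →
      ∀ (r q : ℕ) (G : Fin q → MvPolynomial ((Fin r × Fin 3) ⊕ Fin (n + 1)) (𝓞 K))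
        (d : Fin q → Fin r → ℕ) (m : Fin q → ℕ), (∀ e, MultiHomog (G e) (d e) (m e)) →
        ∀ (σ : K →+* ℂ) (D : ℕ), (∀ V : Fin r → Fin 3 → ℂ, (∀ i, OnE (σ a) (σ b) (V i)) →
          (Fibre (σ.comp (algebraMap (𝓞 K) K)) G V).encard ≤ D) →
        ∀ S : Set (HeightOneSpectrum (𝓞 K)), S.Finite → ∀ τ : ℝ, 0 < τ →
          ∃ T : ℝ, ∀ y : ℙ K (Fin (n + 1) → K), T < y.mulHeight →
            dist x (s y) ≤ y.mulHeight ^ (-τ) → y ∉ Unobstructed a b G S := by
  classical
  have hcO : Countable (𝓞 K) := by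
    have hcK : Countable K := (Module.finBasis ℚ K).equivFun.injective.countable
    exact (RingOfIntegers.coe_injective (K := K)).countable
  have hcM : ∀ r : ℕ, Countable (MvPolynomial ((Fin r × Fin 3) ⊕ Fin (n + 1)) (𝓞 K)) := fun r =>
    countable_mv _ _
  have hcS : Countable (HeightOneSpectrum (𝓞 K)) := countable_primes _
  have hcnt : ∀ i : (Σ r : ℕ, Σ q : ℕ, (𝓞 K × 𝓞 K) ×
      (Fin q → MvPolynomial ((Fin r × Fin 3) ⊕ Fin (n + 1)) (𝓞 K)) ×
        Finset (HeightOneSpectrum (𝓞 K))),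
      Cnt {y : ℙ K (Fin (n + 1) → K) | Hyp K i.2.2.1.1 i.2.2.1.2 i.2.2.2.1 ∧
        y ∈ Unobstructed i.2.2.1.1 i.2.2.1.2 i.2.2.2.1 (i.2.2.2.2 : Set (HeightOneSpectrum (𝓞 K)))}
        (fun y => Real.log y.mulHeight) 0 := by
    rintro ⟨r, q, ⟨a, b⟩, G, S⟩
    refine cnt_of_pow (fun y _ => lt_of_lt_of_le one_pos (mulHeight_pos y)) ?_
    intro ε hε
    change ∃ C : ℝ, ∀ B : ℝ, 1 ≤ B →
      {y : ℙ K (Fin (n + 1) → K) | y ∈ {y : ℙ K (Fin (n + 1) → K) | Hyp K a b G ∧
        y ∈ Unobstructed a b G (S : Set (HeightOneSpectrum (𝓞 K)))} ∧ y.mulHeight ≤ B}.Finite ∧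
      ({y : ℙ K (Fin (n + 1) → K) | y ∈ {y : ℙ K (Fin (n + 1) → K) | Hyp K a b G ∧
        y ∈ Unobstructed a b G (S : Set (HeightOneSpectrum (𝓞 K)))} ∧ y.mulHeight ≤ B}.ncard : ℝ) ≤
        C * B ^ (0 + ε)
    by_cases h : Hyp K a b G
    · obtain ⟨h1, ⟨d, m, h2⟩, σ, D, h3⟩ := id h
      obtain ⟨C, hC⟩ := ClosuresInFamilies.result K a b h1 r n q G d m h2 σ D h3
        (S : Set (HeightOneSpectrum (𝓞 K))) S.finite_toSet ε hε
      refine ⟨C, fun B hB => ?_⟩
      have h4 : {y : ℙ K (Fin (n + 1) → K) | y ∈ {y : ℙ K (Fin (n + 1) → K) | Hyp K a b G ∧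
          y ∈ Unobstructed a b G (S : Set (HeightOneSpectrum (𝓞 K)))} ∧ y.mulHeight ≤ B} =
          {y ∈ Unobstructed a b G (S : Set (HeightOneSpectrum (𝓞 K))) | y.mulHeight ≤ B} := by
        ext y
        constructor
        · rintro ⟨⟨-, h5⟩, h6⟩
          exact ⟨h5, h6⟩
        · rintro ⟨h5, h6⟩
          exact ⟨⟨h, h5⟩, h6⟩
      rw [zero_add, h4]
      exact hC B hB
    · refine ⟨0, fun B hB => ?_⟩
      have h4 : {y : ℙ K (Fin (n + 1) → K) | y ∈ {y : ℙ K (Fin (n + 1) → K) | Hyp K a b G ∧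
          y ∈ Unobstructed a b G (S : Set (HeightOneSpectrum (𝓞 K)))} ∧ y.mulHeight ≤ B} = ∅ := by
        ext y
        constructor
        · rintro ⟨⟨h5, -⟩, -⟩
          exact absurd h5 h
        · intro h5
          exact h5.elim
      exact ⟨by rw [h4]; exact Set.finite_empty, by rw [h4]; simp⟩
  obtain ⟨E, hE, hfin⟩ := zero_dim _ _ (fun _ y _ => Real.log_nonneg (mulHeight_pos y)) hcnt s
  refine ⟨E, hE, fun x hx a b hab r q G d m hG σ D hD S hS τ hτ => ?_⟩
  have h1 := hfin x hx ⟨r, q, (a, b), G, hS.toFinset⟩ τ hτ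
  obtain ⟨T, hT⟩ := Set.Finite.bddAbove (h1.image (fun y : ℙ K (Fin (n + 1) → K) => y.mulHeight))
  refine ⟨T, fun y hy hd hun => ?_⟩
  refine absurd (hT ?_) (not_le.2 hy)
  refine ⟨y, ⟨⟨⟨hab, ⟨d, m, hG⟩, σ, D, hD⟩, ?_⟩, ?_⟩, rfl⟩
  · rw [Set.Finite.coe_toFinset]
    exact hun
  · exact hd.trans (le_of_eq (exp_eq_pow (lt_of_lt_of_le one_pos (mulHeight_pos y)) τ).symm)

end Pool.Agent.Results.MP_308fa9_nt.MembersNearTargets
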