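import Pool.Agent.Results.MP_308fa9_nt.FamiliesOverExtensions
import Pool.Agent.Results.MP_308fa9_nt.ClosuresInFamilies
import Pool.Agent.X134.Win.Idx
import Pool.Agent.X16.NW.D

/-!
# The members with heights near real powers of all families of subvarieties of powers of elliptic curves

There is a set `E` of real numbers of Hausdorff dimension `0` such that for each real number `t > 1` outside `E` and each
`θ < 1` the following holds for ALL number fields `K`, ALL elliptic curves `y² = x³ + a x + b` over `K` and ALL closed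
subsets `X` of `E ^ r × ℙ ^ n` over `K` (families of subvarieties `X_y ⊆ E ^ r` with parameter `y`), for all large `k`
and ALL points `y` in `ℙ ^ n (K)` with `|H(y) - t ^ k| ≤ t ^ (θ k)`.

(1) If the fibres of `X → E ^ r` have at most `D` points, then the closure of the group of `K`-rational points
does not meet the product of the `X_y(K_v)`.
(2) If every complex point of `E ^ r` is for at most `D` of the `y` a sum of `m` points of `X_y`, for `2 ≤ m ≤ M`,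
then for ALL extensions `F` of `K` of degree between `2` and `M` the closure of the group of the `F`-rational
points does not meet the product of the `X_y(F_w)`.

The same holds for `t ^ κ_k` with any real exponents such that `κ_k / log k → ∞`, for `k ^ t` for almost all
`t > 1 / (1 - θ)`, and in general for any family of functions `f_k(t)` the logarithmic slopes of which are locally
bounded from below by a positive constant, for all `t` outside a set of Hausdorff dimension at most `τ / (1 - θ)`.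

Proof. The starting results `ClosuresInFamilies` and `FamiliesOverExtensions` show that there are `O(B ^ ε)`
exceptions up to height `B`; nonlinear covering argument `Pool.Agent.X16.NW`; the situations are countable in number.
The earlier result `AllFamiliesInWindows` is about the linear families `f_k(t) = t v_k`.
-/

set_option autoImplicit false

namespace Pool.Agent.Results.MP_308fa9_nt.RealPowers

open MvPolynomial NumberField IsDedekindDomain MeasureTheory Filter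

open scoped LinearAlgebra.Projectivization

/-- the exponent of convergence of the sequence `w` is at most `τ` -/
def ExpLe (w : ℕ → ℝ) (τ : ℝ) : Prop := ∀ p : ℝ, τ < p → Summable (fun n : ℕ => (w n) ^ (-p))

/-- For all large `n`, `f_n ≥ w_n ≥ 1` on `I` for a sequence `w` with exponent of convergence at most `τ`,
and the logarithmic slopes `(f_n(u) - f_n(t)) / ((u - t) f_n(t))`, `t < u` in `I`, are at least a positive
constant `c`. -/
def Expanding (f : ℕ → ℝ → ℝ) (I : Set ℝ) (τ : ℝ) : Prop :=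
  ∃ (w : ℕ → ℝ) (c : ℝ) (n₁ : ℕ), 0 < c ∧ ExpLe w τ ∧ ∀ n, n₁ ≤ n → 1 ≤ w n ∧ ∀ t ∈ I, w n ≤ f n t ∧
    ∀ u ∈ I, t ≤ u → c * f n t * (u - t) ≤ f n u - f n t

/-- `I` is covered by countably many sets on which the family `f` is expanding -/
def LocExpanding (f : ℕ → ℝ → ℝ) (I : Set ℝ) (τ : ℝ) : Prop :=
  ∃ J : ℕ → Set ℝ, I ⊆ ⋃ A, J A ∧ ∀ A, Expanding f (J A) τ

/-- the number fields inside a fixed algebraic closure of the rationals -/
abbrev NF : Type := Pool.Agent.X134.Win.NF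

/-- all points `y` in `ℙ ^ n (K)` with `|H(y) - F_k| ≤ F_k ^ θ` are outside `S`, for all large `k` -/
def Avoids {K : Type} [Field K] [NumberField K] {n : ℕ} (F : ℕ → ℝ) (θ : ℝ)
    (S : Set (ℙ K (Fin (n + 1) → K))) : Prop :=
  ∃ k₀ : ℕ, ∀ k : ℕ, k₀ ≤ k → ∀ y : ℙ K (Fin (n + 1) → K), |y.mulHeight - F k| ≤ (F k) ^ θ → y ∉ S

/-- the fibres of `X → E ^ r` over the complex points of `E ^ r` have at most `D` points -/
def FibresLE {K : Type} [Field K] (σ : K →+* ℂ) (a b : 𝓞 K) {r n q : ℕ}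
    (G : Fin q → MvPolynomial ((Fin r × Fin 3) ⊕ Fin (n + 1)) (𝓞 K)) (D : ℕ) : Prop :=
  ∀ V : Fin r → Fin 3 → ℂ, (∀ i, ClosuresInFamilies.OnE (σ a) (σ b) (V i)) →
    (ClosuresInFamilies.Fibre (σ.comp (algebraMap (𝓞 K) K)) G V).encard ≤ D

/-- for `2 ≤ m ≤ M` each complex point of `E ^ r` is for at most `D` of the complex points `y` a sum of `m` points
of `X_y` -/
def SumsLE {K : Type} [Field K] (σ : K →+* ℂ) (a b : 𝓞 K) {r n q : ℕ}
    (G : Fin q → MvPolynomial ((Fin r × Fin 3) ⊕ Fin (n + 1)) (𝓞 K)) (M D : ℕ) : Prop :=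
  ∀ m, 2 ≤ m → m ≤ M → ∀ S : Fin r → (FamiliesOverExtensions.curve (σ a) (σ b)).toAffine.Point,
    {y : ℙ ℂ (Fin (n + 1) → ℂ) | FamiliesOverExtensions.IsSum σ a b G m S y.rep}.encard ≤ D

/-- the assertion for all elliptic curves over `K` and all families: the members with height near `F_k` are
obstructed over `K`, and over all extensions of degree between `2` and `M`, for all large `k` -/
def Obstructed (K : Type) [Field K] [NumberField K] (F : ℕ → ℝ) (θ : ℝ) : Prop :=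
  ∀ a b : 𝓞 K, 4 * a ^ 3 + 27 * b ^ 2 ≠ 0 → ∀ (r n q : ℕ)
    (G : Fin q → MvPolynomial ((Fin r × Fin 3) ⊕ Fin (n + 1)) (𝓞 K))
    (d : Fin q → Fin r → ℕ) (deg : Fin q → ℕ),
    (∀ e, FamiliesOverExtensions.MultiHom (G e) (d e) (deg e)) → ∀ (σ : K →+* ℂ) (D : ℕ),
    (FibresLE σ a b G D → ∀ S : Set (HeightOneSpectrum (𝓞 K)), S.Finite →
      Avoids F θ (ClosuresInFamilies.Unobstructed a b G S)) ∧
    ∀ M : ℕ, SumsLE σ a b G M D → ∀ T : Finset ℕ, (∀ p ∈ T, p.Prime) →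
      Avoids F θ (FamiliesOverExtensions.Unobstructed a b G T M)

section Proof

/-- the hypotheses of the first part -/
def Hyp₁ (K : NF) {r n q : ℕ} (a b : 𝓞 K.1)
    (G : Fin q → MvPolynomial ((Fin r × Fin 3) ⊕ Fin (n + 1)) (𝓞 K.1)) : Prop :=
  4 * a ^ 3 + 27 * b ^ 2 ≠ 0 ∧
    (∃ (d : Fin q → Fin r → ℕ) (m : Fin q → ℕ),
      ∀ e, ClosuresInFamilies.MultiHomog (G e) (d e) (m e)) ∧
    ∃ (σ : K.1 →+* ℂ) (D : ℕ), ∀ V : Fin r → Fin 3 → ℂ,
      (∀ j, ClosuresInFamilies.OnE (σ a) (σ b) (V j)) →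
        (ClosuresInFamilies.Fibre (σ.comp (algebraMap (𝓞 K.1) K.1)) G V).encard ≤ D

/-- the exceptions, first part -/
def S₁ (K : NF) {r n q : ℕ} (a b : 𝓞 K.1)
    (G : Fin q → MvPolynomial ((Fin r × Fin 3) ⊕ Fin (n + 1)) (𝓞 K.1))
    (S : Finset (HeightOneSpectrum (𝓞 K.1))) : Set (ℙ K.1 (Fin (n + 1) → K.1)) :=
  {y | Hyp₁ K a b G ∧ y ∈ ClosuresInFamilies.Unobstructed a b G (S : Set (HeightOneSpectrum (𝓞 K.1)))}

/-- few exceptions -/
def Few {T : Type} (h : T → ℝ) (S : Set T) : Prop :=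
  ∀ ε : ℝ, 0 < ε → ∃ C : ℝ, ∀ X : ℝ, 1 ≤ X → {t | t ∈ S ∧ h t ≤ X}.Finite ∧
    ({t | t ∈ S ∧ h t ≤ X}.ncard : ℝ) ≤ C * X ^ ((0 : ℝ) + ε)

theorem few_empty {T : Type} (h : T → ℝ) (S : Set T) (hS : ∀ t, t ∉ S) : Few h S := by
  intro ε hε
  refine ⟨0, fun X hX => ?_⟩
  have e : {t | t ∈ S ∧ h t ≤ X} = ∅ := Set.eq_empty_of_forall_notMem fun t ht => hS t ht.1
  rw [e, Set.ncard_empty]
  exact ⟨Set.finite_empty, by simp⟩

theorem few₁ (K : NF) {r n q : ℕ} (a b : 𝓞 K.1)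
    (G : Fin q → MvPolynomial ((Fin r × Fin 3) ⊕ Fin (n + 1)) (𝓞 K.1))
    (S : Finset (HeightOneSpectrum (𝓞 K.1))) :
    Few (fun y : ℙ K.1 (Fin (n + 1) → K.1) => y.mulHeight) (S₁ K a b G S) := by
  classical
  by_cases h : Hyp₁ K a b G
  · obtain ⟨h1, ⟨d, m, h2⟩, σ, D, h3⟩ := id h
    intro ε hε
    obtain ⟨C, hC⟩ := ClosuresInFamilies.result K.1 a b h1 r n q G d m h2 σ D h3 _ S.finite_toSet ε hε
    refine ⟨C, fun X hX => ?_⟩
    have e : {t : ℙ K.1 (Fin (n + 1) → K.1) | t ∈ S₁ K a b G S ∧ t.mulHeight ≤ X} =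
        {y ∈ ClosuresInFamilies.Unobstructed a b G (S : Set (HeightOneSpectrum (𝓞 K.1))) | y.mulHeight ≤ X} := by
      ext y
      exact ⟨fun hy => ⟨hy.1.2, hy.2⟩, fun hy => ⟨⟨h, hy.1⟩, hy.2⟩⟩
    rw [zero_add, e]
    exact hC X hX
  · exact few_empty _ _ fun y hy => h hy.1

/-- the hypotheses of the second part -/
def Hyp₂ (K : NF) {r n q : ℕ} (a b : 𝓞 K.1)
    (G : Fin q → MvPolynomial ((Fin r × Fin 3) ⊕ Fin (n + 1)) (𝓞 K.1)) (T : Finset ℕ) (M : ℕ) : Prop :=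
  4 * a ^ 3 + 27 * b ^ 2 ≠ 0 ∧
    (∃ (d : Fin q → Fin r → ℕ) (m : Fin q → ℕ),
      ∀ e, FamiliesOverExtensions.MultiHom (G e) (d e) (m e)) ∧ (∀ p ∈ T, p.Prime) ∧
    ∃ (σ : K.1 →+* ℂ) (D : ℕ), ∀ m, 2 ≤ m → m ≤ M →
      ∀ S : Fin r → (FamiliesOverExtensions.curve (σ a) (σ b)).toAffine.Point,
      {y : ℙ ℂ (Fin (n + 1) → ℂ) | FamiliesOverExtensions.IsSum σ a b G m S y.rep}.encard ≤ D

/-- the exceptions, second part -/
def S₂ (K : NF) {r n q : ℕ} (a b : 𝓞 K.1)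
    (G : Fin q → MvPolynomial ((Fin r × Fin 3) ⊕ Fin (n + 1)) (𝓞 K.1)) (T : Finset ℕ) (M : ℕ) :
    Set (ℙ K.1 (Fin (n + 1) → K.1)) :=
  {y | Hyp₂ K a b G T M ∧ y ∈ FamiliesOverExtensions.Unobstructed a b G T M}

theorem few₂ (K : NF) {r n q : ℕ} (a b : 𝓞 K.1)
    (G : Fin q → MvPolynomial ((Fin r × Fin 3) ⊕ Fin (n + 1)) (𝓞 K.1)) (T : Finset ℕ) (M : ℕ) :
    Few (fun y : ℙ K.1 (Fin (n + 1) → K.1) => y.mulHeight) (S₂ K a b G T M) := by
  classical
  by_cases h : Hyp₂ K a b G T M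
  · obtain ⟨h1, ⟨d, m, h2⟩, hT, σ, D, h3⟩ := id h
    intro ε hε
    obtain ⟨C, hC⟩ := FamiliesOverExtensions.result K.1 a b h1 r n q G d m h2 σ M D h3 T hT ε hε
    refine ⟨C, fun X hX => ?_⟩
    have e : {t : ℙ K.1 (Fin (n + 1) → K.1) | t ∈ S₂ K a b G T M ∧ t.mulHeight ≤ X} =
        {y ∈ FamiliesOverExtensions.Unobstructed a b G T M | y.mulHeight ≤ X} := by
      ext y
      exact ⟨fun hy => ⟨hy.1.2, hy.2⟩, fun hy => ⟨⟨h, hy.1⟩, hy.2⟩⟩
    rw [zero_add, e]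
    exact hC X hX
  · exact few_empty _ _ fun y hy => h hy.1

/-- the index set of the first part -/
abbrev I₁ : Type := Pool.Agent.X134.Win.Idx fun K => Finset (HeightOneSpectrum (𝓞 K.1))

/-- the index set of the second part -/
abbrev I₂ : Type := Pool.Agent.X134.Win.Idx fun _ => Finset ℕ × ℕ

/-- the exceptions of the first part, all situations -/
def B₁ : ∀ i : I₁, Set (ℙ i.1.1 (Fin (i.2.2.1 + 1) → i.1.1))
  | ⟨K, _, _, _, (a, b), G, S⟩ => S₁ K a b G S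

/-- the exceptions of the second part, all situations -/
def B₂ : ∀ i : I₂, Set (ℙ i.1.1 (Fin (i.2.2.1 + 1) → i.1.1))
  | ⟨K, _, _, _, (a, b), G, (T, M)⟩ => S₂ K a b G T M

theorem main (f : ℕ → ℝ → ℝ) (I : Set ℝ) (τ θ : ℝ) (hτ : 0 ≤ τ) (hf : LocExpanding f I τ) (hθ : 0 ≤ θ)
    (hθ1 : θ < 1) : ∃ E : Set ℝ, dimH E ≤ ENNReal.ofReal (τ / (1 - θ)) ∧ ∀ t ∈ I, t ∉ E →
      ∀ K : NF, Obstructed K.1 (fun k => f k t) θ := by
  have hB₁ : ∀ i : I₁, Few (fun y : ℙ i.1.1 (Fin (i.2.2.1 + 1) → i.1.1) => y.mulHeight) (B₁ i) := by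
    rintro ⟨K, r, n, q, ⟨a, b⟩, G, S⟩
    exact few₁ K a b G S
  have hB₂ : ∀ i : I₂, Few (fun y : ℙ i.1.1 (Fin (i.2.2.1 + 1) → i.1.1) => y.mulHeight) (B₂ i) := by
    rintro ⟨K, r, n, q, ⟨a, b⟩, G, T, M⟩
    exact few₂ K a b G T M
  choose E₁ hE₁ H₁ using fun i : I₁ =>
    Pool.Agent.X16.NW.windows_loc (B₁ i) (fun y : ℙ i.1.1 (Fin (i.2.2.1 + 1) → i.1.1) => y.mulHeight) hτ
      (s := 0) le_rfl hθ hθ1 (hB₁ i) I f hf
  choose E₂ hE₂ H₂ using fun i : I₂ =>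
    Pool.Agent.X16.NW.windows_loc (B₂ i) (fun y : ℙ i.1.1 (Fin (i.2.2.1 + 1) → i.1.1) => y.mulHeight) hτ
      (s := 0) le_rfl hθ hθ1 (hB₂ i) I f hf
  refine ⟨(⋃ i, E₁ i) ∪ ⋃ i, E₂ i, ?_, fun t ht htE K a b hab r n q G d deg hG σ D => ⟨fun hX S hS => ?_,
    fun M hX T hT => ?_⟩⟩
  · rw [dimH_union, dimH_iUnion, dimH_iUnion]
    refine max_le (iSup_le fun i => (hE₁ i).trans (le_of_eq ?_)) (iSup_le fun i => (hE₂ i).trans (le_of_eq ?_))
    · rw [zero_add]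
    · rw [zero_add]
  · obtain ⟨k₀, hk₀⟩ := H₁ ⟨K, r, n, q, (a, b), G, hS.toFinset⟩ t ht
      (fun h => htE (Or.inl (Set.mem_iUnion.2 ⟨_, h⟩)))
    refine ⟨k₀, fun k hk y hy hyU => ?_⟩
    refine absurd (hk₀ k hk y ?_) (not_lt.2 hy)
    refine ⟨⟨hab, ⟨d, deg, hG⟩, σ, D, hX⟩, ?_⟩
    rw [Set.Finite.coe_toFinset]
    exact hyU
  · obtain ⟨k₀, hk₀⟩ := H₂ ⟨K, r, n, q, (a, b), G, T, M⟩ t ht
      (fun h => htE (Or.inr (Set.mem_iUnion.2 ⟨_, h⟩)))
    refine ⟨k₀, fun k hk y hy hyU => ?_⟩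
    refine absurd (hk₀ k hk y ?_) (not_lt.2 hy)
    exact ⟨⟨hab, ⟨d, deg, hG⟩, hT, σ, D, hX⟩, hyU⟩

theorem avoids_mono {K : Type} [Field K] [NumberField K] {n : ℕ} {F : ℕ → ℝ} {θ θ' : ℝ}
    {S : Set (ℙ K (Fin (n + 1) → K))} (hθ : θ ≤ θ') (hF : ∃ k₁ : ℕ, ∀ k : ℕ, k₁ ≤ k → 1 ≤ F k)
    (h : Avoids F θ' S) : Avoids F θ S := by
  obtain ⟨k₀, hk⟩ := h
  obtain ⟨k₁, hk'⟩ := hF
  exact ⟨max k₀ k₁, fun k hk1 y hy => hk k ((le_max_left _ _).trans hk1) y
    (hy.trans (Real.rpow_le_rpow_of_exponent_le (hk' k ((le_max_right _ _).trans hk1)) hθ))⟩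

theorem obstructed_mono {K : Type} [Field K] [NumberField K] {F : ℕ → ℝ} {θ θ' : ℝ} (hθ : θ ≤ θ')
    (hF : ∃ k₁ : ℕ, ∀ k : ℕ, k₁ ≤ k → 1 ≤ F k) (h : Obstructed K F θ') : Obstructed K F θ := by
  intro a b hab r n q G d deg hG σ D
  obtain ⟨h1, h2⟩ := h a b hab r n q G d deg hG σ D
  exact ⟨fun hX S hS => avoids_mono hθ hF (h1 hX S hS), fun M hX T hT => avoids_mono hθ hF (h2 M hX T hT)⟩

end Proof

/-- (1) For every locally expanding family `f` on `I` with exponent `τ ≥ 0` and `0 ≤ θ < 1` there is a set `E` of Hausdorff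
dimension at most `τ / (1 - θ)` such that for each `t ∈ I` outside `E` and all number fields `K` the two statements of the
header hold for all elliptic curves over `K`, all families, all large `k` and all `y ∈ ℙ ^ n (K)` with
`|H(y) - f_k(t)| ≤ f_k(t) ^ θ`.
(2) `t ^ κ_k` is locally expanding on `(1, ∞)` with `τ = 0` if `κ_k / log k → ∞`, and `k ^ t` on `[a, ∞)`
with `τ = 1 / a` for all `a > 0`.
(3) If `κ_k / log k → ∞` there is a set `E` of Hausdorff dimension `0` such that for all `t > 1` outside `E`, all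
`0 ≤ θ < 1` and all `K` the statements hold for `f_k(t) = t ^ κ_k`.
(4) For almost all `t > 1`, all `θ ≥ 0` with `t > 1 / (1 - θ)` and all `K` they hold for `f_k(t) = k ^ t`. -/
theorem result :
    (∀ (f : ℕ → ℝ → ℝ) (I : Set ℝ) (τ θ : ℝ), 0 ≤ τ → LocExpanding f I τ → 0 ≤ θ → θ < 1 →
      ∃ E : Set ℝ, dimH E ≤ ENNReal.ofReal (τ / (1 - θ)) ∧ ∀ t ∈ I, t ∉ E →
        ∀ K : NF, Obstructed K.1 (fun k => f k t) θ) ∧
    ((∀ κ : ℕ → ℝ, Tendsto (fun k : ℕ => κ k / Real.log k) atTop atTop →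
      LocExpanding (fun k t => t ^ κ k) (Set.Ioi 1) 0) ∧
      ∀ a : ℝ, 0 < a → LocExpanding (fun k t => (k : ℝ) ^ t) (Set.Ici a) (1 / a)) ∧
    (∀ κ : ℕ → ℝ, Tendsto (fun k : ℕ => κ k / Real.log k) atTop atTop →
      ∃ E : Set ℝ, dimH E = 0 ∧ ∀ t : ℝ, 1 < t → t ∉ E → ∀ θ : ℝ, 0 ≤ θ → θ < 1 →
        ∀ K : NF, Obstructed K.1 (fun k => t ^ κ k) θ) ∧
    (∀ᵐ t : ℝ, 1 < t → ∀ θ : ℝ, 0 ≤ θ → θ < 1 → 1 / (1 - θ) < t →
      ∀ K : NF, Obstructed K.1 (fun k => (k : ℝ) ^ t) θ) := by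
  refine ⟨fun f I τ θ hτ hf hθ hθ1 => main f I τ θ hτ hf hθ hθ1, ⟨fun κ hκ => Pool.Agent.X16.NW.loc_rpow κ hκ,
    fun a ha => Pool.Agent.X16.NW.loc_npow a ha⟩, fun κ hκ => ?_, ?_⟩
  · have hk : ∀ m : ℕ, (0 : ℝ) ≤ 1 - 1 / ((m : ℝ) + 1) ∧ 1 - 1 / ((m : ℝ) + 1) < 1 := by
      intro m
      have h1 : (0 : ℝ) < 1 / ((m : ℝ) + 1) := by positivity
      have h2 : 1 / ((m : ℝ) + 1) ≤ 1 := by
        rw [div_le_one (by positivity)]
        have : (0 : ℝ) ≤ m := Nat.cast_nonneg m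
        linarith
      constructor <;> linarith
    choose E hE h using fun m : ℕ => main (fun k t => t ^ κ k) (Set.Ioi 1) 0 (1 - 1 / ((m : ℝ) + 1)) le_rfl
      (Pool.Agent.X16.NW.loc_rpow κ hκ) (hk m).1 (hk m).2
    refine ⟨⋃ m, E m, ?_, fun t ht htE θ hθ hθ1 K => ?_⟩
    · rw [dimH_iUnion]
      refine le_antisymm (iSup_le fun m => (hE m).trans ?_) zero_le
      rw [zero_div, ENNReal.ofReal_zero]
    · obtain ⟨m, hm⟩ := exists_nat_one_div_lt (sub_pos.2 hθ1)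
      refine obstructed_mono (θ' := 1 - 1 / ((m : ℝ) + 1)) (by linarith) ?_
        (h m t ht (fun h' => htE (Set.mem_iUnion.2 ⟨m, h'⟩)) K)
      obtain ⟨n₁, hn₁⟩ := eventually_atTop.1 (hκ.eventually_ge_atTop 0)
      refine ⟨max n₁ 2, fun n hn => Real.one_le_rpow ht.le ?_⟩
      have h4 := hn₁ n ((le_max_left _ _).trans hn)
      have h5 : 0 < Real.log n := Real.log_pos (by exact_mod_cast (le_max_right _ _).trans hn)
      by_contra hneg
      push Not at hneg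
      exact absurd h4 (not_le.2 (div_neg_of_neg_of_pos hneg h5))
  · have key : ∀ q : ℚ × ℚ, ∀ᵐ t : ℝ, 0 ≤ (q.1 : ℝ) → (q.1 : ℝ) < 1 → 1 / (1 - (q.1 : ℝ)) < (q.2 : ℝ) → (q.2 : ℝ) ≤ t →
        ∀ K : NF, Obstructed K.1 (fun k => (k : ℝ) ^ t) q.1 := by
      rintro ⟨θ, a⟩
      by_cases hq : 0 ≤ (θ : ℝ) ∧ (θ : ℝ) < 1 ∧ 1 / (1 - (θ : ℝ)) < (a : ℝ)
      · obtain ⟨hθ, hθ1, ha⟩ := hq
        have hd : 0 < 1 - (θ : ℝ) := by linarith
        have ha0 : (0 : ℝ) < a := (one_div_pos.2 hd).trans ha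
        obtain ⟨E, hE, h⟩ := main (fun k t => (k : ℝ) ^ t) (Set.Ici (a : ℝ)) (1 / a) θ (one_div_pos.2 ha0).le
          (Pool.Agent.X16.NW.loc_npow a ha0) hθ hθ1
        have h1 : volume E = 0 := by
          refine Pool.Agent.X16.NW.null_of_dim ?_ hE
          rw [div_lt_one hd, one_div_lt ha0 hd]
          exact ha
        have h2 : ∀ᵐ t : ℝ, t ∉ E := by
          rw [ae_iff]
          simpa using h1
        filter_upwards [h2] with t ht _ _ _ ht1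
        exact h t ht1 ht
      · filter_upwards with t h1 h2 h3
        exact absurd ⟨h1, h2, h3⟩ hq
    filter_upwards [ae_all_iff.2 key] with t ht ht1 θ hθ hθ1 htθ K
    have hd : 0 < 1 - θ := by linarith
    have ht0 : 0 < t := by linarith
    have h1 : θ < 1 - 1 / t := by
      rw [one_div_lt hd ht0] at htθ
      linarith
    obtain ⟨q, hq1, hq2⟩ := exists_rat_btwn h1
    have hti : 0 < 1 / t := one_div_pos.2 ht0
    have hq3 : (q : ℝ) < 1 := by linarith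
    have h2 : 1 / (1 - (q : ℝ)) < t := by
      rw [one_div_lt (by linarith) ht0]
      linarith
    obtain ⟨a, ha1, ha2⟩ := exists_rat_btwn h2
    refine obstructed_mono hq1.le ⟨1, fun n hn => Real.one_le_rpow (by exact_mod_cast hn) ht0.le⟩ ?_
    exact ht (q, a) (hθ.trans hq1.le) hq3 ha1 ha2.le K

end Pool.Agent.Results.MP_308fa9_nt.RealPowers
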