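import Pool.Agent.X20.Tr.Sqf
import Pool.Agent.Results.MP_308fa9_nt.BrauerManinMixedFactors

/-!
# The Brauer-Manin sets of the quadratic twists by `± ⌊α n ^ c⌋`, factors of any degrees

From Mathlib: `dimH E`: the Hausdorff dimension; `⌊x⌋₊`: the integer part; `Finset.Icc 1 N`: the integers from `1` to
`N`. From the team's `BrauerManinMixedFactors` (its definitions are used as they are): `Factors f`: the `f k ∈ ℤ[x]` are
irreducible over `ℚ`, pairwise non-associated, of even total degree, and at least four of them have odd degree;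
`AdelicPoint f d`: an adelic point of the curve `C_d : d y ^ 2 = ∏ k, F_k(x, w)` (`F_k` the homogenisation of `f k`);
`Orthogonal P`: it is orthogonal to the classes `(F_k, e)`, `deg F_k` even, and `(F_k F_l, e)`, `deg F_k`, `deg F_l` odd,
of the Brauer group of `C_d`, `e` a nonzero integer; `ex`: the system `X² + X + 1`, `X³ - 2`, `X³ - 3`, `X³ - 5`,
`X³ - 19`.
-/

set_option autoImplicit false

namespace Pool.Agent.Results.MP_308fa9_nt.SparseTwistsMixedFactors

open Finset Filter Polynomial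
open Pool.Agent.X20.Tr
open Pool.Agent.W313.BMX (AdelicPoint)
open Pool.Agent.Results.MP_308fa9_nt.BrauerManinMixedFactors (Factors Orthogonal ex)

/-- the curve `C_d : d y ^ 2 = ∏ k, F_k(x, w)` has an adelic point which is not obstructed -/
def Unobstructed {k : ℕ} (f : Fin k → ℤ[X]) (d : ℤ) : Prop := ∃ P : AdelicPoint f d, Orthogonal P

open Classical in
/-- For every real `c > 1` there are `κ > 0` and a set `E` of real numbers of Hausdorff dimension at most `1 - κ`
such that for every real `α > 0` outside `E`, writing `m(n) = ⌊α n ^ c⌋`: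

* for all large `N` at least `N / 24` of the `m(n)`, `n ≤ N`, are squarefree;
* for EVERY system `f` with `Factors f` without linear members and both signs, for some `δ > 0` and `C`: for all large
  `N`, for all but at most `C N (log N) ^ (-δ)` of the `n ≤ N` with squarefree `m(n)` every adelic point of the curve
  `C_d`, `d = ± m(n)`, is obstructed: its Brauer-Manin set is empty;
* the system `ex` is such a system, and its curves `C_d` have adelic points for all `d`. -/
theorem result (c : ℝ) (hc : 1 < c) : ∃ κ : ℝ, 0 < κ ∧ κ < 1 ∧ ∃ E : Set ℝ, dimH E ≤ ENNReal.ofReal (1 - κ) ∧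
    ∀ α : ℝ, 0 < α → α ∉ E →
      (∃ N₀ : ℕ, ∀ N : ℕ, N₀ ≤ N →
        (N : ℝ) / 24 ≤ (((Icc 1 N).filter (fun n : ℕ => Squarefree ⌊α * (n : ℝ) ^ c⌋₊)).card : ℝ)) ∧
      (∀ (k : ℕ) (f : Fin k → ℤ[X]), Factors f → (∀ i, (f i).natDegree ≠ 1) →
        ∃ δ : ℝ, 0 < δ ∧ ∀ s : ℤ, (s = 1 ∨ s = -1) → ∃ C : ℝ, ∃ N₀ : ℕ, ∀ N : ℕ, N₀ ≤ N →
          (((Icc 1 N).filter (fun n : ℕ => Squarefree ⌊α * (n : ℝ) ^ c⌋₊ ∧
            Unobstructed f (s * ((⌊α * (n : ℝ) ^ c⌋₊ : ℕ) : ℤ)))).card : ℝ) ≤ C * N * (Real.log N) ^ (-δ)) ∧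
      (Factors ex ∧ (∀ i, (ex i).natDegree ≠ 1) ∧ ∀ d : ℤ, Nonempty (AdelicPoint ex d)) := by
  obtain ⟨κ, hκ0, hκ1, H⟩ := sparse_sqf c hc
  have := countable_systems
  obtain ⟨E, hE, h⟩ := H ((k : ℕ) × (Fin k → ℤ[X])) (fun i d => Unobstructed i.2 d)
  refine ⟨κ, hκ0, hκ1, E, hE, fun α hα hαE => ⟨(h α hα hαE).1, fun k f hf hl => ?_,
    BrauerManinMixedFactors.result.2⟩⟩
  obtain ⟨δ, hδ, C, hC⟩ := BrauerManinMixedFactors.result.1 (Fin k) f hf hl
  exact ⟨δ, hδ, fun s hs => (h α hα hαE).2 ⟨k, f⟩ s hs δ C hδ ⟨3, hC⟩⟩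

end Pool.Agent.Results.MP_308fa9_nt.SparseTwistsMixedFactors
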